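import Pool.Agent.E8helper19.LC.Stm3
import Pool.Agent.E8helper44.LC.G

/-! Project LC, piece LC34 (G5): the fifth moment of `-G'`. -/

set_option autoImplicit false

open MeasureTheory Filter Topology Set
open scoped Real

namespace Pool.Agent.E8helper22.LC

open Pool.Agent.E8helper19.LC Pool.Agent.E8helper44.LC

lemma int_sech5 : ∫ θ, (Real.cosh θ ^ 5)⁻¹ = 3 * π / 8 := by
  have hd : ∀ θ, HasDerivAt (fun θ : ℝ => Real.sinh θ / Real.cosh θ ^ 4)
      (4 * (Real.cosh θ ^ 5)⁻¹ - 3 * (Real.cosh θ ^ 3)⁻¹) θ := by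
    intro θ
    have hc := cosh_pos' θ
    have h1 := (Real.hasDerivAt_sinh θ).div ((Real.hasDerivAt_cosh θ).pow 4)
      (pow_ne_zero 4 hc.ne')
    refine h1.congr_deriv ?_
    have hs := Real.cosh_sq θ
    have hs3 : Real.sinh θ ^ 2 = Real.cosh θ ^ 2 - 1 := by linarith
    simp only [Nat.cast_ofNat, Nat.add_one_sub_one, Pi.pow_apply]
    field_simp
    ring_nf
    rw [hs3]
    ring
  have hz : ∀ l : Filter ℝ, Tendsto Real.cosh l atTop →
      Tendsto (fun θ => Real.sinh θ / Real.cosh θ ^ 4) l (𝓝 0) := by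
    intro l hl
    refine squeeze_zero_norm (fun θ => ?_) (tendsto_inv_atTop_zero.comp hl)
    refine le_trans ?_ (sinh_le θ)
    rw [Real.norm_eq_abs, abs_div, abs_div]
    have h1 := Real.one_le_cosh θ
    have h2 : |Real.cosh θ ^ 2| ≤ |Real.cosh θ ^ 4| := by
      rw [abs_of_pos (by positivity), abs_of_pos (by positivity)]
      exact pow_le_pow_right₀ h1 (by norm_num)
    have h3 : 0 < |Real.cosh θ ^ 2| := by
      rw [abs_of_pos (by positivity)]; positivity
    exact div_le_div_of_nonneg_left (abs_nonneg _) h3 h2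
  have hint : Integrable (fun θ : ℝ => 4 * (Real.cosh θ ^ 5)⁻¹ - 3 * (Real.cosh θ ^ 3)⁻¹) :=
    ((int_sech_pow 5 (by norm_num)).const_mul 4).sub ((int_sech_pow 3 (by norm_num)).const_mul 3)
  have h := integral_of_hasDerivAt_of_tendsto hd hint (hz _ tendsto_cosh_bot) (hz _ tendsto_cosh_top)
  rw [integral_sub ((int_sech_pow 5 (by norm_num)).const_mul 4)
    ((int_sech_pow 3 (by norm_num)).const_mul 3), integral_const_mul, integral_const_mul,
    int_sech3] at h
  linarith

lemma val_E5 : ∫ x in Ioi (0 : ℝ), x ^ 5 * E 1 x = 45 / 4 := by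
  simp only [E_F2]
  rw [integral_const_mul, integral_integral_swap (int_F2 5 1 (by norm_num))]
  simp only [val_F2 5 1 (by norm_num)]
  rw [integral_const_mul]
  simp only [show 5 + 1 - 1 = 5 from rfl]
  rw [int_sech5]
  simp only [Nat.factorial]
  push_cast
  field_simp
  norm_num

/-- LC34 -/
theorem t_G5 : S_G5 := by
  refine ⟨E 1, E 2, meas_E 1, meas_E 2, fun x _ => ⟨E_nonneg 1 x, E_nonneg 2 x⟩,
    fun x y hx hxy => ⟨E_anti 1 hx hxy, E_anti 2 hx hxy⟩, fun x y hx hxy => ?_,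
    fun x y hx hxy => ?_, fun j hj => int_E j 1 hj, fun j hj => int_E j 2 hj, val_E, val_E5⟩
  · rw [Gk_eq one_pos hx, Gk_eq one_pos (hx.trans_le hxy), one_mul, one_mul]
    exact E_lip hx hxy
  · rw [Gk_eq one_pos hx, Gk_eq one_pos (hx.trans_le hxy), one_mul, one_mul]
    exact E_tay hx hxy

end Pool.Agent.E8helper22.LC
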