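import Pool.Agent.E8helper19.LC.Stm

/-! Project LC, piece LC2 (TAY): Taylor expansion of the chord. -/

set_option autoImplicit false

open Filter Topology Set
open scoped ContDiff Real

namespace Pool.Agent.E8helper22.LC

open Pool.Agent.E8helper19.LC

theorem stp (g g' : ℝ → ℝ) (t C : ℝ) (n : ℕ) (hC : 0 ≤ C) (hg : ∀ s, HasDerivAt g (g' s) s)
    (h0 : g t = 0) (hb : ∀ s, |g' s| ≤ C * |s - t| ^ n) (s : ℝ) : |g s| ≤ C * |s - t| ^ (n + 1) := by
  have h1 : ∀ x ∈ uIcc t s, ‖g' x‖ ≤ C * |s - t| ^ n := by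
    intro x hx
    refine (hb x).trans ?_
    have h2 : |x - t| ≤ |s - t| := by
      have := abs_sub_left_of_mem_uIcc hx
      rwa [abs_sub_comm x t, abs_sub_comm s t] at *
    gcongr
  have h3 := (convex_uIcc t s).norm_image_sub_le_of_norm_hasDerivWithin_le
    (fun x _ => (hg x).hasDerivWithinAt) h1 left_mem_uIcc right_mem_uIcc
  rw [h0, sub_zero, Real.norm_eq_abs, Real.norm_eq_abs] at h3
  calc |g s| ≤ C * |s - t| ^ n * |s - t| := h3
    _ = C * |s - t| ^ (n + 1) := by ring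

theorem bdd_of {E : Type*} [NormedAddCommGroup E] (f : ℝ → E) (L : ℝ) (hf : Continuous f)
    (h0 : ∀ s, L < |s| → f s = 0) : ∃ M : ℝ, 0 ≤ M ∧ ∀ s, ‖f s‖ ≤ M := by
  obtain ⟨M, hM⟩ := (isCompact_Icc (a := -L) (b := L)).exists_bound_of_continuousOn hf.continuousOn
  refine ⟨max M 0, le_max_right _ _, fun s => ?_⟩
  by_cases h : L < |s|
  · rw [h0 s h, norm_zero]; exact le_max_right _ _
  · rw [not_lt, abs_le] at h
    exact (hM s ⟨h.1, h.2⟩).trans (le_max_left _ _)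

/-- a derivative of a function which is constant on both half-lines vanishes there -/
theorem der_zero {E : Type*} [NormedAddCommGroup E] [NormedSpace ℝ E] (f : ℝ → E) (L : ℝ) (a b : E)
    (h1 : ∀ s, L < s → f s = a) (h2 : ∀ s, s < -L → f s = b) :
    ∀ s, L < |s| → deriv f s = 0 := by
  intro s hs
  rcases lt_abs.1 hs with h | h
  · have he : f =ᶠ[𝓝 s] fun _ => a := by
      filter_upwards [Ioi_mem_nhds h] with x hx using h1 x hx
    rw [he.deriv_eq, deriv_const]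
  · have he : f =ᶠ[𝓝 s] fun _ => b := by
      filter_upwards [Iio_mem_nhds (show s < -L by linarith)] with x hx using h2 x hx
    rw [he.deriv_eq, deriv_const]

theorem t_TAY : S_TAY := by
  intro γ L hγ
  have hsm := hγ.smooth
  obtain ⟨γ1, hγ1⟩ : ∃ γ1, γ1 = deriv γ := ⟨_, rfl⟩
  obtain ⟨γ2, hγ2⟩ : ∃ γ2, γ2 = deriv γ1 := ⟨_, rfl⟩
  obtain ⟨γ3, hγ3⟩ : ∃ γ3, γ3 = deriv γ2 := ⟨_, rfl⟩
  obtain ⟨γ4, hγ4⟩ : ∃ γ4, γ4 = deriv γ3 := ⟨_, rfl⟩
  have s1 : ContDiff ℝ 3 γ1 := by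
    rw [hγ1]; exact (contDiff_succ_iff_deriv (n := 3)).1 hsm |>.2.2
  have s2 : ContDiff ℝ 2 γ2 := by
    rw [hγ2]; exact (contDiff_succ_iff_deriv (n := 2)).1 s1 |>.2.2
  have s3 : ContDiff ℝ 1 γ3 := by
    rw [hγ3]; exact (contDiff_succ_iff_deriv (n := 1)).1 s2 |>.2.2
  have s4 : Continuous γ4 := by
    rw [hγ4]
    have := (contDiff_succ_iff_deriv (n := 0)).1 s3 |>.2.2
    exact this.continuous
  have d0 : ∀ s, HasDerivAt γ (γ1 s) s := by
    intro s; rw [hγ1]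
    exact (hsm.differentiable (by norm_num) s).hasDerivAt
  have d1 : ∀ s, HasDerivAt γ1 (γ2 s) s := by
    intro s; rw [hγ2]
    exact (s1.differentiable (by norm_num) s).hasDerivAt
  have d2 : ∀ s, HasDerivAt γ2 (γ3 s) s := by
    intro s; rw [hγ3]
    exact (s2.differentiable (by norm_num) s).hasDerivAt
  have d3 : ∀ s, HasDerivAt γ3 (γ4 s) s := by
    intro s; rw [hγ4]
    exact (s3.differentiable (by norm_num) s).hasDerivAt
  have hu : ∀ s, ‖γ1 s‖ = 1 := by rw [hγ1]; exact hγ.unit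
  -- orthogonality relations
  have o0 : ∀ s, inner ℝ (γ1 s) (γ1 s) = (1 : ℝ) := by
    intro s; rw [real_inner_self_eq_norm_sq, hu s]; norm_num
  have o1 : ∀ s, inner ℝ (γ1 s) (γ2 s) = (0 : ℝ) := by
    intro s
    have h1 : HasDerivAt (fun s => inner ℝ (γ1 s) (γ1 s)) (inner ℝ (γ1 s) (γ2 s) +
      inner ℝ (γ2 s) (γ1 s)) s := (d1 s).inner ℝ (d1 s)
    have h2 : (fun s => inner ℝ (γ1 s) (γ1 s)) = fun _ => (1 : ℝ) := funext o0
    rw [h2] at h1
    have h3 := h1.unique (hasDerivAt_const s (1 : ℝ))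
    rw [real_inner_comm (γ1 s) (γ2 s)] at h3
    linarith
  have o2 : ∀ s, inner ℝ (γ1 s) (γ3 s) = -(‖γ2 s‖ ^ 2 : ℝ) := by
    intro s
    have h1 : HasDerivAt (fun s => inner ℝ (γ1 s) (γ2 s)) (inner ℝ (γ1 s) (γ3 s) +
      inner ℝ (γ2 s) (γ2 s)) s := (d1 s).inner ℝ (d2 s)
    have h2 : (fun s => inner ℝ (γ1 s) (γ2 s)) = fun _ => (0 : ℝ) := funext o1
    rw [h2] at h1
    have h3 := h1.unique (hasDerivAt_const s (0 : ℝ))
    rw [real_inner_self_eq_norm_sq] at h3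
    linarith
  -- vanishing outside
  have v1 : (∀ s, L < s → γ1 s = γ1 L) ∧ (∀ s, s < -L → γ1 s = γ1 (-L)) := by
    constructor
    · intro s hs
      have he : γ =ᶠ[𝓝 s] fun x => γ L + (x - L) • γ1 L := by
        filter_upwards [Ioi_mem_nhds hs] with x hx
        rw [hγ1]
        exact hγ.right x (le_of_lt hx)
      have h1 : HasDerivAt (fun x => γ L + (x - L) • γ1 L) ((1 : ℝ) • γ1 L) s :=
        (((hasDerivAt_id s).sub_const L).smul_const (γ1 L)).const_add (γ L)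
      have h2 := (d0 s).unique (h1.congr_of_eventuallyEq he)
      rw [h2, one_smul]
    · intro s hs
      have he : γ =ᶠ[𝓝 s] fun x => γ (-L) + (x + L) • γ1 (-L) := by
        filter_upwards [Iio_mem_nhds hs] with x hx
        rw [hγ1]
        exact hγ.left x (le_of_lt hx)
      have h1 : HasDerivAt (fun x => γ (-L) + (x + L) • γ1 (-L)) ((1 : ℝ) • γ1 (-L)) s :=
        (((hasDerivAt_id s).add_const L).smul_const (γ1 (-L))).const_add (γ (-L))
      have h2 := (d0 s).unique (h1.congr_of_eventuallyEq he)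
      rw [h2, one_smul]
  have v2 : ∀ s, L < |s| → γ2 s = 0 := by
    rw [hγ2]; exact der_zero γ1 L _ _ v1.1 v1.2
  have hL := hγ.pos
  have v3 : ∀ s, L < |s| → γ3 s = 0 := by
    rw [hγ3]
    exact der_zero γ2 L 0 0 (fun s hs => v2 s (lt_abs.2 (Or.inl hs)))
      (fun s hs => v2 s (lt_abs.2 (Or.inr (by linarith))))
  have v4 : ∀ s, L < |s| → γ4 s = 0 := by
    rw [hγ4]
    exact der_zero γ3 L 0 0 (fun s hs => v3 s (lt_abs.2 (Or.inl hs)))
      (fun s hs => v3 s (lt_abs.2 (Or.inr (by linarith))))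
  obtain ⟨M2, hM20, hM2⟩ := bdd_of γ2 L s2.continuous v2
  obtain ⟨M3, hM30, hM3⟩ := bdd_of γ3 L s3.continuous v3
  obtain ⟨M4, hM40, hM4⟩ := bdd_of γ4 L s4 v4
  -- chord at most arc
  have ch : ∀ s t, ‖γ s - γ t‖ ≤ |s - t| := by
    intro s t
    have h3 := (convex_univ (𝕜 := ℝ) (E := ℝ)).norm_image_sub_le_of_norm_hasDerivWithin_le
      (f := γ) (f' := γ1) (C := 1)
      (fun x _ => (d0 x).hasDerivWithinAt) (fun x _ => (hu x).le) (mem_univ t) (mem_univ s)
    rwa [one_mul, Real.norm_eq_abs] at h3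
  -- the curvature is Lipschitz
  have kl : ∀ s t, |‖γ2 s‖ ^ 2 - ‖γ2 t‖ ^ 2| ≤ 2 * M2 * M3 * |s - t| := by
    intro s t
    have h1 : ∀ x, HasDerivAt (fun s => inner ℝ (γ2 s) (γ2 s)) (inner ℝ (γ2 x) (γ3 x) +
      inner ℝ (γ3 x) (γ2 x)) x := fun x => (d2 x).inner ℝ (d2 x)
    have h2 : ∀ x, ‖inner ℝ (γ2 x) (γ3 x) + inner ℝ (γ3 x) (γ2 x)‖ ≤ 2 * M2 * M3 := by
      intro x
      have e1 := norm_inner_le_norm (𝕜 := ℝ) (γ2 x) (γ3 x)
      have e2 := norm_inner_le_norm (𝕜 := ℝ) (γ3 x) (γ2 x)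
      have e3 : ‖γ2 x‖ * ‖γ3 x‖ ≤ M2 * M3 :=
        mul_le_mul (hM2 x) (hM3 x) (norm_nonneg _) hM20
      calc ‖inner ℝ (γ2 x) (γ3 x) + inner ℝ (γ3 x) (γ2 x)‖
          ≤ ‖inner ℝ (γ2 x) (γ3 x)‖ + ‖inner ℝ (γ3 x) (γ2 x)‖ := norm_add_le _ _
        _ ≤ 2 * M2 * M3 := by linarith
    have h3 := (convex_univ (𝕜 := ℝ) (E := ℝ)).norm_image_sub_le_of_norm_hasDerivWithin_le
      (fun x _ => (h1 x).hasDerivWithinAt) (fun x _ => h2 x) (mem_univ t) (mem_univ s)
    simp only [real_inner_self_eq_norm_sq, Real.norm_eq_abs] at h3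
    exact h3
  set K : ℝ := 4 * M2 * M3 + 2 * M4 with hK
  have hK0 : 0 ≤ K := by positivity
  -- the Taylor expansion of the square of the chord
  have tay : ∀ t s, |‖γ s - γ t‖ ^ 2 - (s - t) ^ 2 + ‖γ2 t‖ ^ 2 * (s - t) ^ 4 / 12| ≤
      K * |s - t| ^ 5 := by
    intro t
    have dD : ∀ s, HasDerivAt (fun s => γ s - γ t) (γ1 s) s := fun s => (d0 s).sub_const (γ t)
    have dr : ∀ s, HasDerivAt (fun s : ℝ => s - t) 1 s := fun s => (hasDerivAt_id s).sub_const t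
    have i4 : ∀ s, |2 * (inner ℝ (γ s - γ t) (γ4 s) + -‖γ2 s‖ ^ 2) + 2 * ‖γ2 t‖ ^ 2| ≤
        K * |s - t| ^ 1 := by
      intro s
      have e1 := norm_inner_le_norm (𝕜 := ℝ) (γ s - γ t) (γ4 s)
      rw [Real.norm_eq_abs] at e1
      have e2 : ‖γ s - γ t‖ * ‖γ4 s‖ ≤ |s - t| * M4 :=
        mul_le_mul (ch s t) (hM4 s) (norm_nonneg _) (abs_nonneg _)
      have e3 := kl s t
      have e4 : 2 * (inner ℝ (γ s - γ t) (γ4 s) + -‖γ2 s‖ ^ 2) + 2 * ‖γ2 t‖ ^ 2 =
          2 * inner ℝ (γ s - γ t) (γ4 s) - 2 * (‖γ2 s‖ ^ 2 - ‖γ2 t‖ ^ 2) := by ring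
      rw [e4, pow_one]
      calc |2 * inner ℝ (γ s - γ t) (γ4 s) - 2 * (‖γ2 s‖ ^ 2 - ‖γ2 t‖ ^ 2)|
          ≤ |2 * inner ℝ (γ s - γ t) (γ4 s)| + |2 * (‖γ2 s‖ ^ 2 - ‖γ2 t‖ ^ 2)| := abs_sub _ _
        _ = 2 * |inner ℝ (γ s - γ t) (γ4 s)| + 2 * |‖γ2 s‖ ^ 2 - ‖γ2 t‖ ^ 2| := by
            rw [abs_mul, abs_mul, abs_two]
        _ ≤ K * |s - t| := by rw [hK]; nlinarith
    -- third derivative
    have i3 := stp (fun s => 2 * inner ℝ (γ s - γ t) (γ3 s) + 2 * ‖γ2 t‖ ^ 2 * (s - t))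
      (fun s => 2 * (inner ℝ (γ s - γ t) (γ4 s) + -‖γ2 s‖ ^ 2) + 2 * ‖γ2 t‖ ^ 2) t K 1 hK0
      (fun s => by
        have h1 := (((dD s).inner ℝ (d3 s)).const_mul 2).add ((dr s).const_mul (2 * ‖γ2 t‖ ^ 2))
        rw [o2 s, mul_one] at h1
        exact h1) (by simp) i4
    have i2 := stp (fun s => 2 * inner ℝ (γ s - γ t) (γ2 s) + ‖γ2 t‖ ^ 2 * (s - t) ^ 2)
      (fun s => 2 * inner ℝ (γ s - γ t) (γ3 s) + 2 * ‖γ2 t‖ ^ 2 * (s - t)) t K 2 hK0
      (fun s => by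
        have h1 := (((dD s).inner ℝ (d2 s)).const_mul 2).add (((dr s).pow 2).const_mul (‖γ2 t‖ ^ 2))
        rw [o1 s, add_zero] at h1
        refine h1.congr_deriv ?_
        push_cast; ring) (by simp) i3
    have i1 := stp (fun s => 2 * inner ℝ (γ s - γ t) (γ1 s) - 2 * (s - t) +
        ‖γ2 t‖ ^ 2 / 3 * (s - t) ^ 3)
      (fun s => 2 * inner ℝ (γ s - γ t) (γ2 s) + ‖γ2 t‖ ^ 2 * (s - t) ^ 2) t K 3 hK0
      (fun s => by
        have h1 := ((((dD s).inner ℝ (d1 s)).const_mul 2).sub ((dr s).const_mul 2)).add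
          (((dr s).pow 3).const_mul (‖γ2 t‖ ^ 2 / 3))
        rw [o0 s] at h1
        refine h1.congr_deriv ?_
        push_cast; ring) (by simp) i2
    have i0 := stp (fun s => inner ℝ (γ s - γ t) (γ s - γ t) - (s - t) ^ 2 +
        ‖γ2 t‖ ^ 2 / 12 * (s - t) ^ 4)
      (fun s => 2 * inner ℝ (γ s - γ t) (γ1 s) - 2 * (s - t) +
        ‖γ2 t‖ ^ 2 / 3 * (s - t) ^ 3) t K 4 hK0
      (fun s => by
        have h1 := (((dD s).inner ℝ (dD s)).sub ((dr s).pow 2)).add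
          (((dr s).pow 4).const_mul (‖γ2 t‖ ^ 2 / 12))
        rw [real_inner_comm (γ s - γ t) (γ1 s)] at h1
        refine h1.congr_deriv ?_
        push_cast; ring) (by simp) i1
    intro s
    have h5 := i0 s
    simp only [real_inner_self_eq_norm_sq] at h5
    rw [show ‖γ2 t‖ ^ 2 * (s - t) ^ 4 / 12 = ‖γ2 t‖ ^ 2 / 12 * (s - t) ^ 4 by ring]
    exact h5
  -- the constants
  set B : ℝ := M2 ^ 2 with hB
  have hB0 : 0 ≤ B := by positivity
  have hkB : ∀ t, ‖γ2 t‖ ^ 2 ≤ B := fun t => by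
    rw [hB]; exact pow_le_pow_left₀ (norm_nonneg _) (hM2 t) 2
  have c2 : ∀ s t, |s - t| - ‖γ s - γ t‖ ≤ (B + K + 1) * |s - t| ^ 3 := by
    intro s t
    have h1 := ch s t
    have h2 := abs_le.1 (tay t s)
    have hn := norm_nonneg (γ s - γ t)
    have hk := hkB t
    have hk0 : 0 ≤ ‖γ2 t‖ ^ 2 := by positivity
    generalize hr : |s - t| = r at *
    have hr0 : 0 ≤ r := by rw [← hr]; exact abs_nonneg _
    have e2 : (s - t) ^ 2 = r ^ 2 := by rw [← hr, sq_abs]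
    have e4 : (s - t) ^ 4 = r ^ 4 := by
      rw [show (s - t) ^ 4 = ((s - t) ^ 2) ^ 2 by ring, e2]; ring
    rw [e2, e4] at h2
    generalize ‖γ s - γ t‖ = c at *
    generalize ‖γ2 t‖ ^ 2 = κ at *
    rcases le_total 1 r with h | h
    · have h3 : r ≤ r ^ 3 := by nlinarith [mul_nonneg hr0 (sub_nonneg.2 h), pow_nonneg hr0 2]
      have h4 : 0 ≤ (B + K) * r ^ 3 := by positivity
      nlinarith
    · rcases hr0.lt_or_eq with h0 | h0
      · have h3 : (r - c) * r ≤ (B + K) * r ^ 4 := by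
          have h4 : (r - c) * r ≤ (r - c) * (r + c) :=
            mul_le_mul_of_nonneg_left (by linarith) (by linarith)
          have h5 : (r - c) * (r + c) ≤ κ * r ^ 4 / 12 + K * r ^ 5 := by
            nlinarith [h2.1]
          have h6 : K * r ^ 5 ≤ K * r ^ 4 := by
            have : r ^ 5 ≤ r ^ 4 := pow_le_pow_of_le_one hr0 h (by norm_num)
            gcongr
          have h7 : κ * r ^ 4 / 12 ≤ B * r ^ 4 := by
            have : κ * r ^ 4 ≤ B * r ^ 4 := by gcongr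
            have h8 : 0 ≤ κ * r ^ 4 := by positivity
            linarith
          linarith
        have h5 : (r - c) * r ≤ ((B + K) * r ^ 3) * r := by
          calc (r - c) * r ≤ (B + K) * r ^ 4 := h3
            _ = ((B + K) * r ^ 3) * r := by ring
        have h6 := le_of_mul_le_mul_right h5 h0
        have h7 : 0 ≤ r ^ 3 := by positivity
        linarith
      · rw [← h0] at h1 ⊢
        nlinarith
  have c3 : ∀ s t, |(|s - t| - ‖γ s - γ t‖) - ‖γ2 t‖ ^ 2 * |s - t| ^ 3 / 24| ≤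
      (K + B * (B + K + 1) + B + 1) * |s - t| ^ 4 := by
    intro s t
    have h1 := ch s t
    have h2 := tay t s
    have h3 := c2 s t
    have hn := norm_nonneg (γ s - γ t)
    have hk := hkB t
    have hk0 : 0 ≤ ‖γ2 t‖ ^ 2 := by positivity
    generalize hr : |s - t| = r at *
    have hr0 : 0 ≤ r := by rw [← hr]; exact abs_nonneg _
    have e2 : (s - t) ^ 2 = r ^ 2 := by rw [← hr, sq_abs]
    have e4 : (s - t) ^ 4 = r ^ 4 := by
      rw [show (s - t) ^ 4 = ((s - t) ^ 2) ^ 2 by ring, e2]; ring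
    rw [e2, e4] at h2
    generalize ‖γ s - γ t‖ = c at *
    generalize ‖γ2 t‖ ^ 2 = κ at *
    have hpos3 : 0 ≤ r ^ 3 := by positivity
    have hpos4 : 0 ≤ r ^ 4 := by positivity
    rcases le_total 1 r with h | h
    · have h34 : r ^ 3 ≤ r ^ 4 := pow_le_pow_right₀ h (by norm_num)
      have h14 : r ≤ r ^ 4 := by
        calc r = r ^ 1 := (pow_one r).symm
          _ ≤ r ^ 4 := pow_le_pow_right₀ h (by norm_num)
      have h5 : 0 ≤ κ * r ^ 3 / 24 := by positivity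
      have h6 : κ * r ^ 3 / 24 ≤ B * r ^ 4 := by
        have : κ * r ^ 3 ≤ B * r ^ 4 := mul_le_mul hk h34 hpos3 hB0
        linarith
      have h7 : 0 ≤ (K + B * (B + K + 1)) * r ^ 4 := by positivity
      rw [abs_le]
      constructor <;> nlinarith
    · rcases hr0.lt_or_eq with h0 | h0
      · have h5 : |(r - c) - κ * r ^ 3 / 24| * r ≤
            ((K + B * (B + K + 1) + B + 1) * r ^ 4) * r := by
          calc |(r - c) - κ * r ^ 3 / 24| * r
              ≤ |(r - c) - κ * r ^ 3 / 24| * (r + c) :=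
                mul_le_mul_of_nonneg_left (by linarith) (abs_nonneg _)
            _ = |((r - c) - κ * r ^ 3 / 24) * (r + c)| := by
                rw [abs_mul, abs_of_nonneg (show 0 ≤ r + c by linarith)]
            _ = |-(c ^ 2 - r ^ 2 + κ * r ^ 4 / 12) + κ * r ^ 3 * (r - c) / 24| := by
                congr 1; ring
            _ ≤ |-(c ^ 2 - r ^ 2 + κ * r ^ 4 / 12)| + |κ * r ^ 3 * (r - c) / 24| := abs_add_le _ _
            _ ≤ K * r ^ 5 + κ * r ^ 3 * (r - c) / 24 := by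
                rw [abs_neg, abs_of_nonneg (show 0 ≤ κ * r ^ 3 * (r - c) / 24 by
                  have : 0 ≤ r - c := by linarith
                  positivity)]
                linarith
            _ ≤ K * r ^ 5 + B * (B + K + 1) * r ^ 5 := by
                have g1 : κ * r ^ 3 * (r - c) ≤ B * r ^ 3 * ((B + K + 1) * r ^ 3) := by
                  have : 0 ≤ r - c := by linarith
                  gcongr
                have g2 : B * r ^ 3 * ((B + K + 1) * r ^ 3) = B * (B + K + 1) * r ^ 6 := by ring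
                have g3 : B * (B + K + 1) * r ^ 6 ≤ B * (B + K + 1) * r ^ 5 := by
                  have : r ^ 6 ≤ r ^ 5 := pow_le_pow_of_le_one hr0 h (by norm_num)
                  gcongr
                have g4 : 0 ≤ B * (B + K + 1) * r ^ 5 := by positivity
                linarith
            _ ≤ ((K + B * (B + K + 1) + B + 1) * r ^ 4) * r := by
                have g4 : 0 ≤ (B + 1) * r ^ 5 := by positivity
                nlinarith
        exact le_of_mul_le_mul_right h5 h0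
      · have hc : c = 0 := by linarith
        rw [hc, ← h0]; norm_num
  refine ⟨(K + B * (B + K + 1) + B + 1) + (B + K + 1), by positivity, ch, ?_, ?_, ?_, ?_⟩
  · intro s t
    refine (c2 s t).trans ?_
    have h1 : 0 ≤ (K + B * (B + K + 1) + B + 1) * |s - t| ^ 3 := by positivity
    nlinarith
  · intro s t
    have h0 : kap2 γ t = ‖γ2 t‖ ^ 2 := by rw [kap2, hγ2, hγ1]
    rw [h0]
    refine (c3 s t).trans ?_
    have h1 : 0 ≤ (B + K + 1) * |s - t| ^ 4 := by positivity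
    nlinarith
  · have h0 : kap2 γ = fun t => ‖γ2 t‖ ^ 2 := by
      funext t; rw [kap2, hγ2, hγ1]
    rw [h0]
    exact (s2.continuous.norm).pow 2
  · intro s hs
    rw [kap2, ← hγ1, ← hγ2, v2 s hs]
    simp

end Pool.Agent.E8helper22.LC
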